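import Pool.Agent.Q33.R154.Final
import Pool.Agent.Q33.R154.TaskC02
import Pool.Agent.Q33.R154.TaskC11
import Pool.Agent.Q33.R154.TaskC20
import Pool.Agent.Q33.R154.TaskC34
import Pool.Agent.Q33.R154.TaskC43b
import Pool.Agent.Q33.R154.TaskF
import Pool.Agent.Q33.R154.TaskG
import Pool.Agent.Q33.R154.TaskLA
import Pool.Agent.Q33.R154.TaskLB
import Pool.Agent.Q33.R154.TaskP
import Pool.Agent.Q33.R154.TaskU
import Pool.Agent.Q33.R154.TaskV
import Pool.Agent.Q33.R154.TaskVp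
import Pool.Agent.Q33.R154.TaskWZ
import Pool.Agent.Q33.R154.TaskX

set_option autoImplicit false

namespace Pool.Agent.Results.MP_1a3e71_nt.PowersOfFive

open Finset

/-- `c_j = (6j)! / ((3j)! (j!)^3)` -/
noncomputable def c (j : ℕ) : ℚ := ((6 * j).factorial : ℚ) / (((3 * j).factorial : ℚ) * (j.factorial : ℚ) ^ 3)

/-- `a_n = (∑_{j<n} (154 j + 15) c_j (-32768)^(n-1-j)) / (10 n (2n+1) C(2n,n))` -/
noncomputable def a (n : ℕ) : ℚ :=
  (∑ j ∈ range n, (154 * (j : ℚ) + 15) * c j * (-32768) ^ (n - 1 - j)) /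
    (10 * n * (2 * n + 1) * ((2 * n).choose n : ℚ))

open Pool.Agent.Q33.R154 in
/-- For every integer `n > 1`: if `2n+1` is not a power of `5`, then `(-1)^(n-1) a_n` is a positive integer; if
`2n+1` is a power of `5`, then `5 a_n` is an integer not divisible by `5`. -/
theorem result : ∀ n : ℕ, 1 < n →
    ((¬ ∃ m : ℕ, 1 ≤ m ∧ 2 * n + 1 = 5 ^ m) → ∃ z : ℤ, 0 < z ∧ (-1) ^ (n - 1) * a n = z) ∧
    ((∃ m : ℕ, 1 ≤ m ∧ 2 * n + 1 = 5 ^ m) → ∃ z : ℤ, 5 * a n = z ∧ ¬ (5 : ℤ) ∣ z) := by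
  have hX := taskX (fun x y => ⟨taskC02 taskU taskLA LB34.main x y, TaskC20.main taskU taskLA LB34.main x y,
    taskC11 taskU taskLA LB34.main x y, taskC34 taskU taskLA LB34.main x y, taskC43b taskU taskLA LB34.main x y⟩)
  exact final P34.main (fun n hn => main taskLA LB34.main taskWZ taskG taskV taskVp taskF hX n hn)

end Pool.Agent.Results.MP_1a3e71_nt.PowersOfFive
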